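import Mathlib

set_option autoImplicit false

namespace Pool.Agent.Results.MP_a33f4b_pr.No

open MeasureTheory ProbabilityTheory Set
open scoped ENNReal

/-- mean split algorithm -/
noncomputable def T : ℕ → Measure ℝ → Measure ℝ
  | 0, μ => Measure.dirac (∫ x, x ∂μ)
  | n + 1, μ => μ (Iio (∫ x, x ∂μ)) • T n μ[|Iio (∫ x, x ∂μ)] + μ (Ici (∫ x, x ∂μ)) • T n μ[|Ici (∫ x, x ∂μ)]

/-- Wasserstein distance -/
noncomputable def W (μ ν : Measure ℝ) : ℝ≥0∞ := ∫⁻ t, ENNReal.ofReal |μ.real (Iic t) - ν.real (Iic t)|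

theorem st {n : ℕ} {ν : Measure ℝ} [IsProbabilityMeasure ν] {s : Set ℝ}
    (a : IsProbabilityMeasure ν[|Iio (∫ x, x ∂ν)] → T n ν[|Iio (∫ x, x ∂ν)] s = 1)
    (b : IsProbabilityMeasure ν[|Ici (∫ x, x ∂ν)] → T n ν[|Ici (∫ x, x ∂ν)] s = 1) : T (n + 1) ν s = 1 := by
  have : ∀ u, (IsProbabilityMeasure ν[|u] → T n ν[|u] s = 1) → ν u * T n ν[|u] s = ν u := fun u h => by
    rcases eq_or_ne (ν u) 0 with c | c
    · simp [c]
    rw [h (cond_isProbabilityMeasure c), mul_one]
  rw [T, Measure.add_apply, Measure.smul_apply, Measure.smul_apply, smul_eq_mul, smul_eq_mul, this _ a, this _ b,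
    ← compl_Iio, prob_add_prob_compl measurableSet_Iio]

theorem l1 {b : ℝ} (h : 0 ≤ b) (n : ℕ) (ν : Measure ℝ) [IsProbabilityMeasure ν] (a : ν (Ioi b) = 0) :
    T n ν (Iic b) = 1 := by
  induction n generalizing ν with
  | zero =>
    refine Measure.dirac_apply_of_mem (mem_Iic.2 ?_)
    by_cases i : Integrable (fun x => x) ν
    · simpa using integral_mono_ae i (integrable_const b) ((measure_eq_zero_iff_ae_notMem.1 a).mono fun _ c => not_lt.1 c)
    rwa [integral_undef i]
  | succ n ih => exact st (fun _ => ih _ (cond_absolutelyContinuous a)) fun _ => ih _ (cond_absolutelyContinuous a)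

/-- uniform laws -/
noncomputable def U (k : ℕ) : Measure ℝ := volume[|Ioc ((4 / 3) ^ k) ((4 / 3) ^ k * (15 / 14))]

theorem lt (k : ℕ) : (4 / 3 : ℝ) ^ k < (4 / 3) ^ k * (15 / 14) := lt_mul_of_one_lt_right (by positivity) (by norm_num)

instance (k : ℕ) : IsProbabilityMeasure (U k) := cond_isProbabilityMeasure_of_finite (by simpa using lt k) (by simp)

theorem aU (k : ℕ) : ∀ᵐ x ∂U k, x ∈ Ioc ((4 / 3) ^ k) ((4 / 3) ^ k * (15 / 14)) := ae_cond_mem measurableSet_Ioc

/-- the mixtures -/
noncomputable def m (k : ℕ) : Measure ℝ := .sum fun j => ENNReal.ofReal (3 / 5 * (2 / 5) ^ j) • U (j + k)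

theorem lm (k : ℕ) {f : ℝ → ℝ≥0∞} {a : ℕ → ℝ} {s : ℝ} (p : ∀ j, 0 ≤ a j) (h : ∀ j, ∫⁻ x, f x ∂U j = .ofReal (a j))
    (q : HasSum (fun j => 3 / 5 * (2 / 5) ^ j * a (j + k)) s) : ∫⁻ x, f x ∂m k = .ofReal s := by
  simp only [m, lintegral_sum_measure, lintegral_smul_measure, h, smul_eq_mul]
  rw [← q.tsum_eq, ENNReal.ofReal_tsum_of_nonneg (fun j => by have := p (j + k); positivity) q.summable]
  exact tsum_congr fun j => (ENNReal.ofReal_mul (by positivity)).symm

instance (k : ℕ) : IsProbabilityMeasure (m k) := ⟨by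
  refine lintegral_one.symm.trans ((lm k (a := 1) (by simp) (by simp) (((hasSum_geometric_of_lt_one (r := 2 / 5)
    (by norm_num) (by norm_num)).mul_left (3 / 5)).congr_fun fun _ => mul_one _)).trans ?_)
  norm_num⟩

theorem am (k : ℕ) : ∀ᵐ x ∂m k, (4 / 3) ^ k < x := Measure.ae_sum_iff.2 fun j => Measure.ae_smul_measure
  ((aU _).mono fun _ h => (pow_le_pow_right₀ (by norm_num) (Nat.le_add_left ..)).trans_lt h.1) _

theorem ms (k : ℕ) : m k = ENNReal.ofReal (3 / 5) • U k + ENNReal.ofReal (2 / 5) • m (k + 1) := by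
  ext s h
  simp only [m, Measure.sum_apply _ h, Measure.add_apply, Measure.smul_apply, smul_eq_mul]
  rw [tsum_eq_zero_add' ENNReal.summable, ← ENNReal.tsum_mul_left, pow_zero, mul_one, zero_add]
  refine congrArg _ (tsum_congr fun j => ?_)
  rw [← mul_assoc, ← ENNReal.ofReal_mul (by norm_num), add_right_comm, add_assoc, pow_succ]
  ring_nf

theorem mean (k : ℕ) : ∫ x, x ∂m k = (4 / 3) ^ k * (261 / 196) := by
  rw [integral_eq_lintegral_of_nonneg_ae ((am k).mono fun x h => le_trans (by positivity) h.le) aestronglyMeasurable_id,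
    lm k (a := fun j => (4 / 3) ^ j * (29 / 28)) (fun _ => by positivity) (fun j => ?_) (((hasSum_geometric_of_lt_one
      (r := 2 / 5 * (4 / 3)) (by norm_num) (by norm_num)).mul_left ((4 / 3) ^ k * (87 / 140))).congr_fun fun j => by
      rw [mul_pow, pow_add]
      ring), ENNReal.toReal_ofReal (by positivity)]
  · ring
  rw [← ofReal_integral_eq_lintegral_ofReal (f := fun x => x) (.of_mem_Icc _ _ aemeasurable_id ((aU j).mono fun _ c => Ioc_subset_Icc_self c))
    ((aU j).mono fun x h => le_trans (by positivity) h.1.le), U, ProbabilityTheory.cond, integral_smul_measure,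
    ← intervalIntegral.integral_of_le (lt j).le, integral_id, Real.volume_Ioc, ENNReal.toReal_inv,
    ENNReal.toReal_ofReal (sub_pos.2 (lt j)).le, smul_eq_mul]
  congr 1
  field_simp
  ring

theorem l2 {b : ℝ} (n k : ℕ) (h : (4 / 3) ^ (k + n + 1) ≤ b) : T n (m k) (Iic b) = 1 := by
  have p : (0 : ℝ) < (4 / 3) ^ k := by positivity
  have a : (4 / 3) ^ k * (261 / 196) ≤ b := le_trans (by rw [pow_succ]; linarith)
    ((pow_le_pow_right₀ (by norm_num) (show k + 1 ≤ k + n + 1 by omega)).trans h)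
  induction n generalizing k with
  | zero => exact Measure.dirac_apply_of_mem (mean k ▸ a :)
  | succ n ih =>
    refine st (fun _ => l1 (by linarith) _ _ (measure_eq_zero_iff_ae_notMem.2 ((ae_cond_mem measurableSet_Iio).mono
      fun x c d => (mean k ▸ c : x < _).not_gt (a.trans_lt d)))) fun _ => ?_
    have c : (m k).restrict (Ici (∫ x, x ∂m k)) = ENNReal.ofReal (2 / 5) • m (k + 1) := by
      rw [mean, ms, Measure.restrict_add, Measure.restrict_smul, Measure.restrict_smul, Measure.restrict_eq_zero.2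
        (measure_eq_zero_iff_ae_notMem.2 ((aU k).mono fun x c d => by linarith [c.2, mem_Ici.1 d])),
        Measure.restrict_eq_self_of_ae_mem (s := Ici _) ((am _).mono fun x c => le_trans (by rw [pow_succ]; linarith) c.le)]
      simp
    rw [ProbabilityTheory.cond, ← (m k).restrict_apply_univ, c, smul_smul, Measure.smul_apply, measure_univ, smul_eq_mul, mul_one,
      ENNReal.inv_mul_cancel (by simp) (by simp), one_smul]
    exact ih _ (by rwa [add_right_comm k 1]) (by positivity) (le_trans (by rw [pow_succ _ (k + 1)]; exact mul_le_mul_of_nonneg_left (by norm_num) (by positivity))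
      ((pow_le_pow_right₀ (by norm_num) (show k + 1 + 1 ≤ k + (n + 1) + 1 by omega)).trans h))

theorem l3 (s : Set ℝ) (k : ℕ) : (2 / 5) ^ k * (m k).real s ≤ (m 0).real s := by
  induction k with
  | zero => simp
  | succ k ih =>
    refine le_trans ?_ ih
    rw [pow_succ, mul_assoc, ms k, measureReal_add_apply (by simp [ENNReal.mul_ne_top]) (by simp [ENNReal.mul_ne_top]),
      measureReal_ennreal_smul_apply, measureReal_ennreal_smul_apply,
      ENNReal.toReal_ofReal (by norm_num : (0 : ℝ) ≤ 2 / 5)]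
    gcongr
    exact le_add_of_nonneg_left (by positivity)

theorem result : ∃ (μ : Measure ℝ) (c ρ : ℝ), IsProbabilityMeasure μ ∧ μ ≪ volume ∧ Integrable (fun x => x ^ 2) μ ∧
    0 < c ∧ 1 / 2 < ρ ∧ ∀ n, ENNReal.ofReal (c * ρ ^ n) ≤ W (T n μ) μ := by
  refine ⟨m 0, 16 / 225, 2 / 5 * (4 / 3), inferInstance, Measure.absolutelyContinuous_sum_left fun j =>
    cond_absolutelyContinuous.smul_left _, ⟨by fun_prop, ?_⟩, by norm_num, by norm_num, fun n => ?_⟩
  · rw [HasFiniteIntegral, m, lintegral_sum_measure]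
    refine lt_of_le_of_lt (ENNReal.tsum_le_tsum fun j => ?_) ((summable_geometric_of_lt_one (r := 2 / 5 * (4 / 3) ^ 2)
      (by norm_num) (by norm_num)).tsum_ofReal_lt_top)
    rw [lintegral_smul_measure, smul_eq_mul]
    refine (mul_le_mul_right (lintegral_mono_ae (g := fun _ => .ofReal (((4 / 3) ^ j * (15 / 14)) ^ 2)) ((aU _).mono
      fun x h => ?_)) _).trans ?_
    · rw [Real.enorm_of_nonneg (sq_nonneg x)]
      exact ENNReal.ofReal_le_ofReal (pow_le_pow_left₀ (le_trans (by positivity) h.1.le) h.2 2)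
    rw [lintegral_const, measure_univ, mul_one, ← ENNReal.ofReal_mul (by positivity), mul_pow, mul_pow, pow_right_comm]
    exact ENNReal.ofReal_le_ofReal (by nlinarith [show (0 : ℝ) < (2 / 5) ^ j * ((4 / 3) ^ 2) ^ j by positivity])
  refine le_trans ?_ ((setLIntegral_mono' (f := fun _ => .ofReal ((2 / 5) ^ (n + 2))) (measurableSet_Icc
    (a := (4 / 3) ^ (n + 1)) (b := (4 / 3) ^ (n + 2))) fun t h => ENNReal.ofReal_le_ofReal ?_).trans
    (setLIntegral_le_lintegral _ _))
  · rw [setLIntegral_const, Real.volume_Icc, ← ENNReal.ofReal_mul (by positivity), mul_pow]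
    exact ENNReal.ofReal_le_ofReal (le_of_eq (by ring))
  have := l3 (Iic t)ᶜ (n + 2)
  rw [probReal_compl_eq_one_sub measurableSet_Iic, probReal_compl_eq_one_sub measurableSet_Iic, Measure.real,
    (measure_eq_zero_iff_ae_notMem (s := Iic t)).2 ((am _).mono fun x c d => c.not_ge (le_trans d h.2))] at this
  rw [Measure.real, l2 n 0 (by simpa using h.1)]
  exact le_trans (by simpa using this) (le_abs_self _)

end Pool.Agent.Results.MP_a33f4b_pr.No
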